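import Pool.Agent.Run7.h35.NEG.Iface2

/-! MP_6c92e3_an, piece ANN (pure linear algebra). -/

set_option autoImplicit false

namespace Run7.h81.NEG.ANN

open Finset Module Run7.h35.NEG

variable {n r : ℕ} {ι : Type} [Fintype ι]

/-- The stacked matrix as a linear map. -/
def stk (A : Fin n → Fin r → ℝ) (A₀ : ι → Fin r → ℝ) : (Fin r → ℝ) →ₗ[ℝ] (Fin n ⊕ ι → ℝ) where
  toFun v := Sum.elim (fun b => ∑ j, A b j * v j) (fun b => ∑ j, A₀ b j * v j)
  map_add' v w := by
    funext b
    rcases b with b | b <;> simp [mul_add, sum_add_distrib]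
  map_smul' c v := by
    funext b
    rcases b with b | b <;> simp [mul_sum, mul_left_comm]

omit [Fintype ι] in
theorem mem_stk {A : Fin n → Fin r → ℝ} {A₀ : ι → Fin r → ℝ} {v : Fin r → ℝ} :
    v ∈ LinearMap.ker (stk A A₀) ↔
      (∀ b, ∑ j, A b j * v j = 0) ∧ (∀ b, ∑ j, A₀ b j * v j = 0) := by
  rw [LinearMap.mem_ker]
  constructor
  · intro h
    exact ⟨fun b => congrFun h (Sum.inl b), fun b => congrFun h (Sum.inr b)⟩
  · rintro ⟨h1, h2⟩
    funext b
    rcases b with b | b
    · exact h1 b
    · exact h2 b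

/-- The residual map. -/
noncomputable def res (A B : Fin n → Fin r → ℝ) (V : Submodule ℝ (Fin r → ℝ)) :
    EuclideanSpace ℝ (Fin n ⊕ Fin n) →ₗ[ℝ] (Fin r → ℝ) where
  toFun f := (fun j => ∑ b, f (Sum.inl b) * A b j + ∑ b, f (Sum.inr b) * B b j) -
    proj V (fun j => ∑ b, f (Sum.inl b) * A b j + ∑ b, f (Sum.inr b) * B b j)
  map_add' f g := by
    have h : (fun j => ∑ b, (f + g) (Sum.inl b) * A b j + ∑ b, (f + g) (Sum.inr b) * B b j) =
        (fun j => ∑ b, f (Sum.inl b) * A b j + ∑ b, f (Sum.inr b) * B b j) +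
        (fun j => ∑ b, g (Sum.inl b) * A b j + ∑ b, g (Sum.inr b) * B b j) := by
      funext j
      simp only [PiLp.add_apply, add_mul, sum_add_distrib, Pi.add_apply]
      ring
    rw [h, map_add]
    abel
  map_smul' c f := by
    have h : (fun j => ∑ b, (c • f) (Sum.inl b) * A b j + ∑ b, (c • f) (Sum.inr b) * B b j) =
        c • (fun j => ∑ b, f (Sum.inl b) * A b j + ∑ b, f (Sum.inr b) * B b j) := by
      funext j
      simp only [PiLp.smul_apply, smul_eq_mul, Pi.smul_apply, mul_add, mul_sum, mul_assoc]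
    rw [h, map_smul, RingHom.id_apply, smul_sub]

theorem main : S_ANN := by
  intro n m r A ι _ A₀ B σ hι hmn hσ hV
  set V : Submodule ℝ (Fin r → ℝ) := LinearMap.ker (stk A A₀) with hVdef
  -- dimension of the complement
  have hdimV : r ≤ finrank ℝ V + (n + m) := by
    have h1 := LinearMap.finrank_range_add_finrank_ker (stk A A₀)
    have h2 : finrank ℝ (LinearMap.range (stk A A₀)) ≤ n + m := by
      refine (Submodule.finrank_le _).trans ?_
      rw [Module.finrank_fintype_fun_eq_card, Fintype.card_sum, Fintype.card_fin]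
      omega
    rw [Module.finrank_fintype_fun_eq_card, Fintype.card_fin, ← hVdef] at h1
    omega
  have hdimP : finrank ℝ (LinearMap.ker (proj V)) ≤ n + m := by
    have h1 := LinearMap.finrank_range_add_finrank_ker (proj V)
    have h2 : LinearMap.range (proj V) = V := by
      apply le_antisymm
      · rintro _ ⟨v, rfl⟩
        exact proj_mem V v
      · intro v hv
        exact ⟨v, proj_of_mem hv⟩
    rw [Module.finrank_fintype_fun_eq_card, Fintype.card_fin, h2] at h1
    omega
  have hrange : LinearMap.range (res A B V) ≤ LinearMap.ker (proj V) := by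
    rintro _ ⟨f, rfl⟩
    rw [LinearMap.mem_ker]
    show proj V (_ - proj V _) = 0
    rw [map_sub, proj_idem, sub_self]
  have hker : n - m ≤ finrank ℝ (LinearMap.ker (res A B V)) := by
    have h1 := LinearMap.finrank_range_add_finrank_ker (res A B V)
    have h2 := Submodule.finrank_mono hrange
    rw [finrank_euclideanSpace, Fintype.card_sum, Fintype.card_fin] at h1
    omega
  -- the orthonormal family
  set f : Fin (n - m) → EuclideanSpace ℝ (Fin n ⊕ Fin n) := fun e =>
    (stdOrthonormalBasis ℝ (LinearMap.ker (res A B V)) (Fin.castLE hker e) :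
      EuclideanSpace ℝ (Fin n ⊕ Fin n)) with hf
  have horth : Orthonormal ℝ f := by
    have h1 := (stdOrthonormalBasis ℝ (LinearMap.ker (res A B V))).orthonormal.comp
      (Fin.castLE hker) (Fin.castLE_injective hker)
    exact h1.comp_linearIsometry (LinearMap.ker (res A B V)).subtypeₗᵢ
  have hfk : ∀ e, f e ∈ LinearMap.ker (res A B V) := fun e => Subtype.coe_prop _
  -- the rows of A are orthogonal to V
  have hA : ∀ b, proj V (A b) = 0 := by
    intro b
    have h1 : proj V (A b) ∈ V := proj_mem V _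
    have h2 : ∑ j, proj V (A b) j * proj V (A b) j = 0 := by
      rw [proj_symm, proj_idem]
      exact (mem_stk.1 h1).1 b
    funext j
    have h3 := (sum_eq_zero_iff_of_nonneg (fun j _ => mul_self_nonneg _)).1 h2 j (mem_univ j)
    exact mul_self_eq_zero.1 h3
  have hx : ∀ e j, ∑ b, f e (Sum.inl b) * A b j + ∑ b, f e (Sum.inr b) * B b j =
      ∑ b, f e (Sum.inr b) * proj V (B b) j := by
    intro e
    have h1 : (fun j => ∑ b, f e (Sum.inl b) * A b j + ∑ b, f e (Sum.inr b) * B b j) =
        proj V (fun j => ∑ b, f e (Sum.inl b) * A b j + ∑ b, f e (Sum.inr b) * B b j) :=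
      sub_eq_zero.1 (LinearMap.mem_ker.1 (hfk e))
    have h2 : (fun j => ∑ b, f e (Sum.inl b) * A b j + ∑ b, f e (Sum.inr b) * B b j) =
        ∑ b, f e (Sum.inl b) • A b + ∑ b, f e (Sum.inr b) • B b := by
      funext j
      simp [Finset.sum_apply]
    intro j
    have h3 := congrFun h1 j
    rw [h2] at h3
    simp only [map_add, map_sum, map_smul, hA, smul_zero, sum_const_zero, zero_add] at h3
    rw [h3]
    simp [Finset.sum_apply]
  refine ⟨fun e b => f e (Sum.inl b), fun e b => f e (Sum.inr b), ?_, ?_⟩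
  · intro e e'
    have h1 := orthonormal_iff_ite.1 horth e e'
    rw [← h1, PiLp.inner_apply, Fintype.sum_sum_type]
    simp [mul_comm]
  · simp only [hx]
    rw [sum_comm]
    have hB : ∀ b, ∑ j, proj V (B b) j ^ 2 ≤ σ := by
      intro b
      set w := proj V (B b) with hw
      have hwV : w ∈ V := proj_mem V _
      have h1 : ∑ j, w j ^ 2 = ∑ j, B b j * w j := by
        have h2 := proj_symm V (B b) w
        rw [← hw, proj_of_mem hwV] at h2
        rw [← h2]
        exact sum_congr rfl fun j _ => sq _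
      have h2 : (∑ j, B b j * w j) ^ 2 ≤ σ * ∑ j, w j ^ 2 := by
        refine le_trans ?_ (hV w (mem_stk.1 hwV).1 (mem_stk.1 hwV).2)
        exact single_le_sum (f := fun b => (∑ j, B b j * w j) ^ 2) (fun b _ => sq_nonneg _)
          (mem_univ b)
      rw [← h1] at h2
      have h3 : 0 ≤ ∑ j, w j ^ 2 := sum_nonneg fun j _ => sq_nonneg _
      rcases h3.eq_or_lt with h4 | h4
      · rw [← h4]
        exact hσ
      · by_contra h5
        rw [not_le] at h5
        nlinarith
    have hbes : ∀ j, ∑ e, (∑ b, f e (Sum.inr b) * proj V (B b) j) ^ 2 ≤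
        ∑ b, proj V (B b) j ^ 2 := by
      intro j
      set g : EuclideanSpace ℝ (Fin n ⊕ Fin n) :=
        WithLp.toLp 2 (Sum.elim (fun _ => 0) (fun b => proj V (B b) j)) with hg
      have h1 := horth.sum_inner_products_le (x := g) (s := univ)
      have h2 : ∀ e, ‖inner ℝ (f e) g‖ ^ 2 = (∑ b, f e (Sum.inr b) * proj V (B b) j) ^ 2 := by
        intro e
        rw [Real.norm_eq_abs, sq_abs, PiLp.inner_apply, Fintype.sum_sum_type]
        simp [hg, mul_comm]
      have h3 : ‖g‖ ^ 2 = ∑ b, proj V (B b) j ^ 2 := by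
        rw [EuclideanSpace.norm_eq, Real.sq_sqrt (by positivity), Fintype.sum_sum_type]
        simp [hg]
      simpa only [h2, h3] using h1
    refine (sum_le_sum fun j _ => hbes j).trans ?_
    rw [sum_comm]
    refine (sum_le_sum fun b _ => hB b).trans ?_
    simp

end Run7.h81.NEG.ANN
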