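import Pool.Agent.Run7.h35.NEG.Iface2

/-! MP_6c92e3_an, piece RIG. -/

set_option autoImplicit false

namespace Run7.h81.NEG.RIG

open Finset Module Run7.h35.NEG

/-- Bessel's inequality for an orthonormal family `(p_e, p'_e)`. -/
theorem bessel {n n' : ℕ} (p p' : Fin n' → Fin n → ℝ)
    (h : ∀ e f, ∑ b, p e b * p f b + ∑ b, p' e b * p' f b = if e = f then 1 else 0)
    (x x' : Fin n → ℝ) :
    ∑ e, (∑ b, p e b * x b + ∑ b, p' e b * x' b) ^ 2 ≤ ∑ b, x b ^ 2 + ∑ b, x' b ^ 2 := by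
  set f : Fin n' → EuclideanSpace ℝ (Fin n ⊕ Fin n) := fun e =>
    WithLp.toLp 2 (Sum.elim (p e) (p' e)) with hf
  have horth : Orthonormal ℝ f := by
    rw [orthonormal_iff_ite]
    intro e e'
    rw [← h e e', PiLp.inner_apply, Fintype.sum_sum_type]
    simp [hf, mul_comm]
  set g : EuclideanSpace ℝ (Fin n ⊕ Fin n) := WithLp.toLp 2 (Sum.elim x x') with hg
  have h1 := horth.sum_inner_products_le (x := g) (s := univ)
  have h2 : ∀ e, ‖inner ℝ (f e) g‖ ^ 2 = (∑ b, p e b * x b + ∑ b, p' e b * x' b) ^ 2 := by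
    intro e
    rw [Real.norm_eq_abs, sq_abs, PiLp.inner_apply, Fintype.sum_sum_type]
    simp [hf, hg, mul_comm]
  have h3 : ‖g‖ ^ 2 = ∑ b, x b ^ 2 + ∑ b, x' b ^ 2 := by
    rw [EuclideanSpace.norm_eq, Real.sq_sqrt (by positivity), Fintype.sum_sum_type]
    simp [hg]
  simpa only [h2, h3] using h1

theorem main : S_RIG := by
  intro T H₂ ε C₀ g Γ hε hT i hi r hr1 hr2 hr3 u v yz yw lz lw κ κ' δ' hu hv hlz hlw hyz hyw hδ'
    n' hn' p p' hp hsum
  have hr0 : (1 : ℝ) ≤ r := by exact_mod_cast hr1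
  have hκ : 0 ≤ κ := by
    have h1 := (hs_nonneg yz).trans hyz
    by_contra h2
    rw [not_le] at h2
    nlinarith
  have hκ' : 0 ≤ κ' := by
    have h1 := (hs_nonneg yw).trans hyw
    by_contra h2
    rw [not_le] at h2
    nlinarith
  set lam : ℝ := 8 * (δ' + κ + κ') + 2 * ε with hlam
  have hlampos : 0 < lam := by positivity
  have key : ∃ α β : ℝ, ∑ ν ∈ univ.filter (fun ν => occ2 u v ν ≤ T.k i ^ 10),
      ∑ t, (α * u ν t + β * v ν t) ^ 2 < lam * r * (α ^ 2 + β ^ 2) := by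
    by_contra hcon
    push Not at hcon
    have h1 := (hT.rm i hi).rigid r hr2 hr3 (fun t ν => u ν t) (fun t ν => v ν t) hu hv lam
      (by rw [hlam]; linarith [mul_nonneg (by norm_num : (0:ℝ) ≤ 8) (by linarith : 0 ≤ δ' + κ + κ')])
      (by
        intro α β
        refine (hcon α β).trans (le_of_eq ?_)
        rw [sum_comm]
        refine sum_congr rfl fun t _ => ?_
        refine sum_congr ?_ fun _ _ => rfl
        ext ν
        simp only [mem_filter, mem_univ, true_and, occ2]) n' hn' p p' hp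
    have h2 : ∀ t : Fin r, ∑ e, (∑ b, p e b * ∑ ν, T.G i b ν * u ν t +
        ∑ b, p' e b * ∑ ν, T.G i b ν * v ν t) ^ 2 ≤
        2 * ∑ e, (∑ b, p e b * lz b t + ∑ b, p' e b * lw b t) ^ 2 +
          2 * (∑ b, yz b t ^ 2 + ∑ b, yw b t ^ 2) := by
      intro t
      have h3 := bessel p p' hp (fun b => yz b t) (fun b => yw b t)
      refine le_trans ?_ (add_le_add le_rfl (mul_le_mul_of_nonneg_left h3 (by norm_num)))
      rw [mul_sum, mul_sum, ← sum_add_distrib]
      refine sum_le_sum fun e _ => ?_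
      have h4 : ∑ b, p e b * ∑ ν, T.G i b ν * u ν t + ∑ b, p' e b * ∑ ν, T.G i b ν * v ν t =
          (∑ b, p e b * lz b t + ∑ b, p' e b * lw b t) -
          (∑ b, p e b * yz b t + ∑ b, p' e b * yw b t) := by
        have h5 : ∀ b, ∑ ν, T.G i b ν * u ν t = lz b t - yz b t := by
          intro b
          rw [hlz b t, Tower.GM]
          ring
        have h6 : ∀ b, ∑ ν, T.G i b ν * v ν t = lw b t - yw b t := by
          intro b
          rw [hlw b t, Tower.GM]
          ring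
        simp only [h5, h6, mul_sub, sum_sub_distrib]
        ring
      rw [h4]
      nlinarith [sq_nonneg ((∑ b, p e b * lz b t + ∑ b, p' e b * lw b t) +
          (∑ b, p e b * yz b t + ∑ b, p' e b * yw b t))]
    have h7 := h1.trans (sum_le_sum fun t _ => h2 t)
    rw [sum_add_distrib, ← mul_sum, ← mul_sum, sum_add_distrib] at h7
    have h8 : ∑ t, ∑ e, (∑ b, p e b * lz b t + ∑ b, p' e b * lw b t) ^ 2 ≤ δ' * r := by
      rw [sum_comm]
      exact hsum
    have h9 : ∑ t, ∑ b, yz b t ^ 2 ≤ κ * r := by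
      rw [sum_comm]
      exact hyz
    have h10 : ∑ t, ∑ b, yw b t ^ 2 ≤ κ' * r := by
      rw [sum_comm]
      exact hyw
    have h11 : 0 < ε * r := by positivity
    nlinarith
  obtain ⟨α, β, hαβ⟩ := key
  have hs0 : 0 ≤ ∑ ν ∈ univ.filter (fun ν => occ2 u v ν ≤ T.k i ^ 10),
      ∑ t, (α * u ν t + β * v ν t) ^ 2 :=
    sum_nonneg fun _ _ => sum_nonneg fun _ _ => sq_nonneg _
  have hpos : 0 < α ^ 2 + β ^ 2 := by
    have h1 : 0 < lam * r * (α ^ 2 + β ^ 2) := hs0.trans_lt hαβ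
    exact (pos_iff_pos_of_mul_pos h1).1 (by positivity)
  set s : ℝ := Real.sqrt (α ^ 2 + β ^ 2) with hs
  have hspos : 0 < s := Real.sqrt_pos.2 hpos
  have hssq : s ^ 2 = α ^ 2 + β ^ 2 := Real.sq_sqrt hpos.le
  refine ⟨α / s, β / s, ?_, ?_⟩
  · rw [div_pow, div_pow, ← add_div, hssq, div_self hpos.ne']
  · have h1 : ∀ ν t, (α / s * u ν t + β / s * v ν t) ^ 2 =
        (α * u ν t + β * v ν t) ^ 2 / (α ^ 2 + β ^ 2) := by
      intro ν t
      rw [← hssq]
      field_simp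
    simp only [h1, ← sum_div]
    rw [div_le_iff₀ hpos]
    exact hαβ.le

end Run7.h81.NEG.RIG
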